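import Pool.Agent.X13.Lucas.Strong

/-!
# Product and lcm of a strong divisibility sequence over an interval
-/

open Finset

namespace Pool.Agent.X13.Lucas

lemma prime_pow_dvd_lcm {p e : ℕ} (hp : p.Prime) (he : 1 ≤ e) (S : Finset ℕ) (f : ℕ → ℕ)
    (hf : ∀ i ∈ S, f i ≠ 0) : p ^ e ∣ S.lcm f ↔ ∃ i ∈ S, p ^ e ∣ f i := by
  classical
  constructor
  · intro h
    by_contra hc
    push Not at hc
    have key : ∀ T ⊆ S, ¬ p ^ e ∣ T.lcm f := by
      intro T
      induction T using Finset.induction_on with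
      | empty =>
        intro _ hd
        rw [Finset.lcm_empty, Nat.dvd_one] at hd
        have := hp.one_lt
        have := Nat.one_lt_pow (by omega : e ≠ 0) this
        omega
      | insert a T ha ih =>
        intro hT hd
        rw [Finset.lcm_insert] at hd
        have h1 := ih (fun x hx => hT (Finset.mem_insert_of_mem hx))
        have h2 := hc a (hT (Finset.mem_insert_self a T))
        have hfa : f a ≠ 0 := hf a (hT (Finset.mem_insert_self a T))
        have hT0 : T.lcm f ≠ 0 := by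
          rw [Ne, Finset.lcm_eq_zero_iff]
          rintro ⟨x, hx, hx0⟩
          exact hf x (hT (Finset.mem_insert_of_mem hx)) hx0
        change p ^ e ∣ Nat.lcm (f a) (T.lcm f) at hd
        rw [Nat.Prime.pow_dvd_iff_le_factorization hp (Nat.lcm_ne_zero hfa hT0),
          Nat.factorization_lcm hfa hT0] at hd
        rw [Nat.Prime.pow_dvd_iff_le_factorization hp hfa] at h2
        rw [Nat.Prime.pow_dvd_iff_le_factorization hp hT0] at h1
        have : (f a).factorization p ⊔ (T.lcm f).factorization p < e :=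
          max_lt (not_le.1 h2) (not_le.1 h1)
        exact absurd hd (not_le.2 this)
    exact key S (Finset.Subset.refl S) h
  · rintro ⟨i, hi, hd⟩
    exact hd.trans (Finset.dvd_lcm hi)

/-- number of multiples of `r` in the interval `(n - k, n]`. -/
lemma card_multiples (n k r : ℕ) (hk : k ≤ n) :
    ((Finset.Ioc (n - k) n).filter (fun x => r ∣ x)).card = n / r - (n - k) / r := by
  have h1 := Nat.Ioc_filter_dvd_card_eq_div n r
  have h2 := Nat.Ioc_filter_dvd_card_eq_div (n - k) r
  have h3 : (Finset.Ioc 0 n).filter (fun x => r ∣ x) =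
      (Finset.Ioc 0 (n - k)).filter (fun x => r ∣ x) ∪
        (Finset.Ioc (n - k) n).filter (fun x => r ∣ x) := by
    rw [← Finset.filter_union, Finset.Ioc_union_Ioc_eq_Ioc (Nat.zero_le _) (Nat.sub_le _ _)]
  have h4 : Disjoint ((Finset.Ioc 0 (n - k)).filter (fun x => r ∣ x))
      ((Finset.Ioc (n - k) n).filter (fun x => r ∣ x)) := by
    apply Finset.disjoint_filter_filter
    rw [Finset.disjoint_left]
    intro x hx hx'
    rw [Finset.mem_Ioc] at hx hx'
    omega
  rw [h3, Finset.card_union_of_disjoint h4] at h1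
  omega

/-- Combinatorial core: comparison of the excess number of multiples. -/
lemma excess (n k r : ℕ) (hk : k ≤ n) (hr : 1 ≤ r) :
    (k / r - if 1 ≤ k / r then 1 else 0) ≤
      ((n / r - (n - k) / r) - if 1 ≤ n / r - (n - k) / r then 1 else 0) ∧
    ((k / r - if 1 ≤ k / r then 1 else 0) =
      ((n / r - (n - k) / r) - if 1 ≤ n / r - (n - k) / r then 1 else 0) ↔
        (r ≤ k → k % r ≤ n % r)) := by
  have hsum : n / r = (n - k) / r + k / r + if r ≤ (n - k) % r + k % r then 1 else 0 := by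
    have := Nat.add_div (a := n - k) (b := k) hr
    rw [Nat.sub_add_cancel hk] at this
    exact this
  have hmod : r ≤ (n - k) % r + k % r ↔ n % r < k % r := by
    have h1 : ((n - k) % r + k % r) % r = n % r := by
      rw [← Nat.add_mod, Nat.sub_add_cancel hk]
    have h2 := Nat.mod_lt (n - k) (show 0 < r by omega)
    have h3 := Nat.mod_lt k (show 0 < r by omega)
    constructor
    · intro h
      rw [Nat.mod_eq_sub_mod h, Nat.mod_eq_of_lt (by omega)] at h1
      omega
    · intro h
      by_contra hc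
      rw [Nat.mod_eq_of_lt (by omega)] at h1
      omega
  by_cases hrk : r ≤ k
  · have hk1 : 1 ≤ k / r := (Nat.one_le_div_iff (by omega)).2 hrk
    by_cases hlt : n % r < k % r
    · rw [if_pos (hmod.2 hlt)] at hsum
      rw [if_pos hk1, if_pos (by omega)]
      constructor
      · omega
      · constructor
        · intro h; omega
        · intro h; have := h hrk; omega
    · rw [if_neg (fun h => hlt (hmod.1 h))] at hsum
      rw [if_pos hk1, if_pos (by omega)]
      constructor
      · omega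
      · constructor
        · intro _ _; omega
        · intro _; omega
  · have hk0 : k / r = 0 := Nat.div_eq_of_lt (by omega)
    rw [hk0] at hsum ⊢
    constructor
    · simp
    · constructor
      · intro _ h; exact absurd h hrk
      · intro _
        rw [if_neg (by omega)]
        split_ifs at hsum ⊢ <;> omega

variable (u : ℕ → ℕ) (h1 : u 1 = 1) (hne : ∀ n, 1 ≤ n → u n ≠ 0)
  (hgcd : ∀ m n, Nat.gcd (u m) (u n) = u (Nat.gcd m n))
include h1 hne hgcd

lemma rank_exists (g : ℕ) (h : ∃ n, 1 ≤ n ∧ g ∣ u n) :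
    ∃ r, 1 ≤ r ∧ g ∣ u r ∧ ∀ m, 1 ≤ m → (g ∣ u m ↔ r ∣ m) := by
  classical
  let r := Nat.find h
  have hr : 1 ≤ r ∧ g ∣ u r := Nat.find_spec h
  refine ⟨r, hr.1, hr.2, fun m hm => ⟨fun hg => ?_, fun hd => ?_⟩⟩
  · have h2 : g ∣ u (Nat.gcd r m) := by
      rw [← hgcd]
      exact Nat.dvd_gcd hr.2 hg
    have h3 : 1 ≤ Nat.gcd r m := Nat.gcd_pos_of_pos_left _ (by omega)
    have h4 : r ≤ Nat.gcd r m := Nat.find_min' h ⟨h3, h2⟩
    have h5 : Nat.gcd r m = r := Nat.le_antisymm (Nat.gcd_le_left _ (by omega)) h4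
    rw [← h5]
    exact Nat.gcd_dvd_right _ _
  · have h2 : u r ∣ u m := by
      have := hgcd r m
      rw [Nat.gcd_eq_left hd] at this
      rw [← this]
      exact Nat.gcd_dvd_right _ _
    exact hr.2.trans h2

open scoped Classical in
/-- the contribution of a single prime power. -/
lemma local_excess (n k : ℕ) (hk : k ≤ n) (g : ℕ) :
    (((Finset.Ioc 0 k).filter (fun m => g ∣ u m)).card -
        if ∃ m ∈ Finset.Ioc 0 k, g ∣ u m then 1 else 0) ≤
      (((Finset.Ioc (n - k) n).filter (fun m => g ∣ u m)).card -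
        if ∃ m ∈ Finset.Ioc (n - k) n, g ∣ u m then 1 else 0) ∧
    ((((Finset.Ioc 0 k).filter (fun m => g ∣ u m)).card -
        if ∃ m ∈ Finset.Ioc 0 k, g ∣ u m then 1 else 0) =
      (((Finset.Ioc (n - k) n).filter (fun m => g ∣ u m)).card -
        if ∃ m ∈ Finset.Ioc (n - k) n, g ∣ u m then 1 else 0) ↔
      ∀ r, 1 ≤ r → r ≤ k → g ∣ u r → (∀ j, 1 ≤ j → j < r → ¬ g ∣ u j) → k % r ≤ n % r) := by
  classical
  by_cases hex : ∃ n, 1 ≤ n ∧ g ∣ u n
  · obtain ⟨r, hr1, hgr, hr⟩ := rank_exists u h1 hne hgcd g hex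
    have c1 : ∀ s : Finset ℕ, (∀ m ∈ s, 1 ≤ m) →
        s.filter (fun m => g ∣ u m) = s.filter (fun m => r ∣ m) := by
      intro s hs
      apply Finset.filter_congr
      intro m hm
      exact hr m (hs m hm)
    have c2 : ∀ s : Finset ℕ, (∃ m ∈ s, g ∣ u m) ↔ 1 ≤ (s.filter (fun m => g ∣ u m)).card := by
      intro s
      rw [Nat.succ_le_iff, Finset.card_pos]
      constructor
      · rintro ⟨m, hm, hd⟩
        exact ⟨m, Finset.mem_filter.2 ⟨hm, hd⟩⟩
      · rintro ⟨m, hm⟩
        rw [Finset.mem_filter] at hm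
        exact ⟨m, hm.1, hm.2⟩
    have hI : ∀ m ∈ Finset.Ioc (n - k) n, 1 ≤ m := by
      intro m hm
      rw [Finset.mem_Ioc] at hm
      omega
    have hK : ∀ m ∈ Finset.Ioc 0 k, 1 ≤ m := by
      intro m hm
      rw [Finset.mem_Ioc] at hm
      omega
    simp only [c2, c1 _ hI, c1 _ hK, card_multiples n k r hk, Nat.Ioc_filter_dvd_card_eq_div]
    have he := excess n k r hk hr1
    refine ⟨he.1, he.2.trans ?_⟩
    constructor
    · intro h r' hr'1 hr'k hgr' hmin
      have h2 : r ∣ r' := (hr r' hr'1).1 hgr'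
      have h3 : r' = r := by
        by_contra hne'
        have : r < r' := lt_of_le_of_ne (Nat.le_of_dvd (by omega) h2) (Ne.symm hne')
        exact hmin r hr1 this hgr
      rw [h3] at hr'k ⊢
      exact h hr'k
    · intro h hrk
      apply h r hr1 hrk hgr
      intro j hj1 hjr hgj
      have := Nat.le_of_dvd (by omega) ((hr j hj1).1 hgj)
      omega
  · have hz : ∀ s : Finset ℕ, (∀ m ∈ s, 1 ≤ m) →
        s.filter (fun m => g ∣ u m) = ∅ ∧ ¬ ∃ m ∈ s, g ∣ u m := by
      intro s hs
      constructor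
      · rw [Finset.filter_eq_empty_iff]
        intro m hm hd
        exact hex ⟨m, hs m hm, hd⟩
      · rintro ⟨m, hm, hd⟩
        exact hex ⟨m, hs m hm, hd⟩
    have hI := hz (Finset.Ioc (n - k) n) (by
      intro m hm
      rw [Finset.mem_Ioc] at hm
      omega)
    have hK := hz (Finset.Ioc 0 k) (by
      intro m hm
      rw [Finset.mem_Ioc] at hm
      omega)
    rw [hI.1, hK.1, if_neg hI.2, if_neg hK.2]
    refine ⟨le_rfl, ?_⟩
    constructor
    · intro _ r hr1 _ hgr
      exact absurd ⟨r, hr1, hgr⟩ hex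
    · intro _; rfl

open scoped Classical in
/-- The `p`-adic valuations of the product and of the lcm, as sums over exponents. -/
lemma val_prod_lcm (s : Finset ℕ) (hs : ∀ m ∈ s, 1 ≤ m) (p : ℕ) (hp : p.Prime) (b : ℕ)
    (hb : ∀ m ∈ s, u m < p ^ b) (hb' : s.lcm u < p ^ b) :
    (∏ m ∈ s, u m).factorization p =
      ∑ e ∈ Finset.Ico 1 b, (s.filter (fun m => p ^ e ∣ u m)).card ∧
    (s.lcm u).factorization p =
      ∑ e ∈ Finset.Ico 1 b, (if ∃ m ∈ s, p ^ e ∣ u m then 1 else 0) := by
  classical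
  constructor
  · rw [Nat.factorization_prod_apply (fun m hm => hne m (hs m hm))]
    calc ∑ m ∈ s, (u m).factorization p
        = ∑ m ∈ s, ((Finset.Ico 1 b).filter (fun e => p ^ e ∣ u m)).card := by
          refine Finset.sum_congr rfl fun m hm => ?_
          exact Nat.factorization_eq_card_pow_dvd_of_lt hp
            (Nat.pos_of_ne_zero (hne m (hs m hm))) (hb m hm)
      _ = ∑ m ∈ s, ∑ e ∈ Finset.Ico 1 b, (if p ^ e ∣ u m then 1 else 0) := by
          refine Finset.sum_congr rfl fun m _ => ?_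
          rw [Finset.card_filter]
      _ = ∑ e ∈ Finset.Ico 1 b, ∑ m ∈ s, (if p ^ e ∣ u m then 1 else 0) := Finset.sum_comm
      _ = _ := by
          refine Finset.sum_congr rfl fun e _ => ?_
          rw [Finset.card_filter]
  · have hl : s.lcm u ≠ 0 := by
      rw [Ne, Finset.lcm_eq_zero_iff]
      rintro ⟨x, hx, hx0⟩
      exact hne x (hs x hx) hx0
    rw [Nat.factorization_eq_card_pow_dvd_of_lt hp (Nat.pos_of_ne_zero hl) hb',
      Finset.card_filter]
    refine Finset.sum_congr rfl fun e he => ?_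
    rw [Finset.mem_Ico] at he
    have := prime_pow_dvd_lcm hp he.1 s u (fun i hi => hne i (hs i hi))
    by_cases hd : p ^ e ∣ s.lcm u
    · rw [if_pos hd, if_pos (this.1 hd)]
    · rw [if_neg hd, if_neg (fun h => hd (this.2 h))]

/-- **Criterion.** Over a strong divisibility sequence, product/lcm over `(n-k, n]` equals
product/lcm over `(0, k]` exactly when `k % d ≤ n % d` for each `2 ≤ d ≤ k` with
`u d ∤ lcm (u 1, …, u (d-1))`. -/
theorem criterion (n k : ℕ) (hk1 : 1 ≤ k) (hk : k ≤ n) :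
    (∏ m ∈ Finset.Ioc (n - k) n, u m) * (Finset.Ioc 0 k).lcm u =
      (∏ m ∈ Finset.Ioc 0 k, u m) * (Finset.Ioc (n - k) n).lcm u ↔
    ∀ d, 2 ≤ d → d ≤ k → ¬ (u d ∣ (Finset.Ioc 0 (d - 1)).lcm u) → k % d ≤ n % d := by
  classical
  set I := Finset.Ioc (n - k) n with hIdef
  set K := Finset.Ioc 0 k with hKdef
  have hI : ∀ m ∈ I, 1 ≤ m := by
    intro m hm
    rw [hIdef, Finset.mem_Ioc] at hm
    omega
  have hK : ∀ m ∈ K, 1 ≤ m := by
    intro m hm
    rw [hKdef, Finset.mem_Ioc] at hm
    omega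
  have hlcm0 : ∀ s : Finset ℕ, (∀ m ∈ s, 1 ≤ m) → s.lcm u ≠ 0 := by
    intro s hs
    rw [Ne, Finset.lcm_eq_zero_iff]
    rintro ⟨x, hx, hx0⟩
    exact hne x (hs x hx) hx0
  have hprod0 : ∀ s : Finset ℕ, (∀ m ∈ s, 1 ≤ m) → ∏ m ∈ s, u m ≠ 0 := by
    intro s hs
    rw [Finset.prod_ne_zero_iff]
    exact fun m hm => hne m (hs m hm)
  set b := I.lcm u + K.lcm u + ∑ m ∈ I, u m + ∑ m ∈ K, u m + 1 with hb
  have hlt : ∀ x, x < b → ∀ p : ℕ, p.Prime → x < p ^ b := by
    intro x hx p hp
    exact lt_of_lt_of_le hx (Nat.lt_pow_self hp.one_lt).le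
  have hIb : ∀ m ∈ I, u m < b := by
    intro m hm
    have := Finset.single_le_sum (f := u) (fun _ _ => Nat.zero_le _) hm
    omega
  have hKb : ∀ m ∈ K, u m < b := by
    intro m hm
    have := Finset.single_le_sum (f := u) (fun _ _ => Nat.zero_le _) hm
    omega
  -- reduce to a statement about prime powers
  have step1 : (∏ m ∈ I, u m) * K.lcm u = (∏ m ∈ K, u m) * I.lcm u ↔
      ∀ p : ℕ, p.Prime → ∀ e ∈ Finset.Ico 1 b, ∀ r, 1 ≤ r → r ≤ k → p ^ e ∣ u r →
        (∀ j, 1 ≤ j → j < r → ¬ p ^ e ∣ u j) → k % r ≤ n % r := by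
    have hiff : (∏ m ∈ I, u m) * K.lcm u = (∏ m ∈ K, u m) * I.lcm u ↔
        ∀ p : ℕ, p.Prime → ((∏ m ∈ I, u m) * K.lcm u).factorization p =
          ((∏ m ∈ K, u m) * I.lcm u).factorization p := by
      constructor
      · intro h p _
        rw [h]
      · intro h
        apply Nat.eq_of_factorization_eq (mul_ne_zero (hprod0 I hI) (hlcm0 K hK))
          (mul_ne_zero (hprod0 K hK) (hlcm0 I hI))
        intro p
        by_cases hp : p.Prime
        · exact h p hp
        · rw [Nat.factorization_eq_zero_of_not_prime _ hp,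
            Nat.factorization_eq_zero_of_not_prime _ hp]
    rw [hiff]
    apply forall_congr'
    intro p
    apply imp_congr_right
    intro hp
    have vI := val_prod_lcm u h1 hne hgcd I hI p hp b (fun m hm => hlt _ (hIb m hm) p hp)
      (hlt _ (by omega) p hp)
    have vK := val_prod_lcm u h1 hne hgcd K hK p hp b (fun m hm => hlt _ (hKb m hm) p hp)
      (hlt _ (by omega) p hp)
    rw [Nat.factorization_mul (hprod0 I hI) (hlcm0 K hK),
      Nat.factorization_mul (hprod0 K hK) (hlcm0 I hI), Finsupp.add_apply, Finsupp.add_apply,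
      vI.1, vI.2, vK.1, vK.2]
    -- the excesses
    set a : ℕ → ℕ := fun e => ((K.filter (fun m => p ^ e ∣ u m)).card -
        if ∃ m ∈ K, p ^ e ∣ u m then 1 else 0) with ha
    set c : ℕ → ℕ := fun e => ((I.filter (fun m => p ^ e ∣ u m)).card -
        if ∃ m ∈ I, p ^ e ∣ u m then 1 else 0) with hc
    have hsplit : ∀ (s : Finset ℕ) (e : ℕ), (s.filter (fun m => p ^ e ∣ u m)).card =
        ((s.filter (fun m => p ^ e ∣ u m)).card - if ∃ m ∈ s, p ^ e ∣ u m then 1 else 0) +
          if ∃ m ∈ s, p ^ e ∣ u m then 1 else 0 := by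
      intro s e
      split_ifs with h
      · obtain ⟨m, hm, hd⟩ := h
        have : 0 < (s.filter (fun m => p ^ e ∣ u m)).card :=
          Finset.card_pos.2 ⟨m, Finset.mem_filter.2 ⟨hm, hd⟩⟩
        omega
      · rfl
    have eI : ∑ e ∈ Finset.Ico 1 b, (I.filter (fun m => p ^ e ∣ u m)).card =
        ∑ e ∈ Finset.Ico 1 b, c e +
          ∑ e ∈ Finset.Ico 1 b, (if ∃ m ∈ I, p ^ e ∣ u m then 1 else 0) := by
      rw [← Finset.sum_add_distrib]
      exact Finset.sum_congr rfl fun e _ => hsplit I e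
    have eK : ∑ e ∈ Finset.Ico 1 b, (K.filter (fun m => p ^ e ∣ u m)).card =
        ∑ e ∈ Finset.Ico 1 b, a e +
          ∑ e ∈ Finset.Ico 1 b, (if ∃ m ∈ K, p ^ e ∣ u m then 1 else 0) := by
      rw [← Finset.sum_add_distrib]
      exact Finset.sum_congr rfl fun e _ => hsplit K e
    rw [eI, eK]
    have hle : ∀ e ∈ Finset.Ico 1 b, a e ≤ c e := by
      intro e _
      convert (local_excess u h1 hne hgcd n k hk (p ^ e)).1
    have hsum := Finset.sum_eq_sum_iff_of_le hle
    constructor
    · intro h e he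
      have h2 : ∑ e ∈ Finset.Ico 1 b, a e = ∑ e ∈ Finset.Ico 1 b, c e := by omega
      apply (local_excess u h1 hne hgcd n k hk (p ^ e)).2.1
      convert hsum.1 h2 e he
    · intro h
      have h2 : ∑ e ∈ Finset.Ico 1 b, a e = ∑ e ∈ Finset.Ico 1 b, c e := by
        rw [hsum]
        intro e he
        convert (local_excess u h1 hne hgcd n k hk (p ^ e)).2.2 (h e he)
      omega
  rw [step1]
  constructor
  · intro h d hd2 hdk hnd
    rw [Nat.dvd_iff_prime_pow_dvd_dvd] at hnd
    push Not at hnd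
    obtain ⟨p, e, hp, hpd, hpn⟩ := hnd
    have he1 : 1 ≤ e := by
      rcases Nat.eq_zero_or_pos e with h0 | h0
      · rw [h0, pow_zero] at hpn
        exact absurd (one_dvd _) hpn
      · exact h0
    have hdK : d ∈ K := by
      rw [hKdef, Finset.mem_Ioc]
      omega
    have heb : e < b := by
      have h3 : p ^ e ≤ u d := Nat.le_of_dvd (Nat.pos_of_ne_zero (hne d (by omega))) hpd
      have h4 : e < p ^ e := Nat.lt_pow_self hp.one_lt
      have h5 := hKb d hdK
      omega
    refine h p hp e (Finset.mem_Ico.2 ⟨he1, heb⟩) d (by omega) hdk hpd ?_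
    intro j hj1 hjd hgj
    apply hpn
    exact hgj.trans (Finset.dvd_lcm (Finset.mem_Ioc.2 ⟨by omega, by omega⟩))
  · intro h p hp e he r hr1 hrk hpr hmin
    rw [Finset.mem_Ico] at he
    have hr2 : 2 ≤ r := by
      by_contra hc
      have : r = 1 := by omega
      rw [this, h1, Nat.dvd_one] at hpr
      have := Nat.one_lt_pow (by omega : e ≠ 0) hp.one_lt
      omega
    apply h r hr2 hrk
    intro hd
    have h3 := hpr.trans hd
    rw [prime_pow_dvd_lcm hp he.1 _ u (by
      intro i hi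
      rw [Finset.mem_Ioc] at hi
      exact hne i (by omega))] at h3
    obtain ⟨j, hj, hjd⟩ := h3
    rw [Finset.mem_Ioc] at hj
    exact hmin j (by omega) (by omega) hjd

end Pool.Agent.X13.Lucas
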