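import Mathlib

/-!
# Lucas sequences are strong divisibility sequences; product against lcm over an interval
-/

open Finset

namespace Pool.Agent.X13.Lucas

/-- The Lucas sequence `U(P, Q)`. -/
def U (P Q : ℤ) : ℕ → ℤ
  | 0 => 0
  | 1 => 1
  | (n + 2) => P * U P Q (n + 1) - Q * U P Q n

lemma U_add (P Q : ℤ) (m n : ℕ) :
    U P Q (m + n + 1) = U P Q (m + 1) * U P Q (n + 1) - Q * (U P Q m * U P Q n) := by
  have key : ∀ n, U P Q (m + n + 1) = U P Q (m + 1) * U P Q (n + 1) - Q * (U P Q m * U P Q n) ∧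
      U P Q (m + (n + 1) + 1) =
        U P Q (m + 1) * U P Q (n + 1 + 1) - Q * (U P Q m * U P Q (n + 1)) := by
    intro n
    induction n with
    | zero =>
      constructor
      · simp [U]
      · simp [U]; ring
    | succ n ih =>
      refine ⟨ih.2, ?_⟩
      have e1 : U P Q (m + (n + 1 + 1) + 1) =
          P * U P Q (m + (n + 1) + 1) - Q * U P Q (m + n + 1) := by
        rw [show m + (n + 1 + 1) + 1 = (m + n + 1) + 2 by ring, U]
        congr 3
      have e2 : U P Q (n + 1 + 1 + 1) = P * U P Q (n + 1 + 1) - Q * U P Q (n + 1) := by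
        rw [show n + 1 + 1 + 1 = (n + 1) + 2 by ring, U]
      have e3 : U P Q (n + 1 + 1) = P * U P Q (n + 1) - Q * U P Q n := by
        rw [show n + 1 + 1 = n + 2 by ring, U]
      rw [e1, ih.1, ih.2, e2, e3]
      ring
  exact (key n).1

variable {P Q : ℤ} (hPQ : IsCoprime P Q)
include hPQ

lemma coprime_Q (n : ℕ) : IsCoprime (U P Q (n + 1)) Q := by
  induction n with
  | zero => simpa [U] using (isCoprime_one_left)
  | succ n ih =>
    rw [show n + 1 + 1 = n + 2 by ring, U]
    have h : IsCoprime (P * U P Q (n + 1)) Q := IsCoprime.mul_left hPQ ih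
    have e : P * U P Q (n + 1) - Q * U P Q n = P * U P Q (n + 1) + Q * (-U P Q n) := by ring
    rw [e]
    exact IsCoprime.add_mul_left_left h _

lemma coprime_succ (n : ℕ) : IsCoprime (U P Q n) (U P Q (n + 1)) := by
  induction n with
  | zero => simpa [U] using (isCoprime_one_right)
  | succ n ih =>
    rw [show n + 1 + 1 = n + 2 by ring, U]
    have h : IsCoprime (U P Q (n + 1)) (Q * U P Q n) :=
      IsCoprime.mul_right (coprime_Q hPQ n) ih.symm
    have h2 : IsCoprime (U P Q (n + 1)) (-(Q * U P Q n)) := h.neg_right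
    have e : P * U P Q (n + 1) - Q * U P Q n = -(Q * U P Q n) + U P Q (n + 1) * P := by ring
    rw [e]
    exact IsCoprime.add_mul_left_right h2 _

lemma gcd_add (m n : ℕ) : Int.gcd (U P Q n) (U P Q (m + n)) = Int.gcd (U P Q n) (U P Q m) := by
  rcases n with _ | n
  · simp
  have h := U_add P Q m n
  rw [show m + (n + 1) = m + n + 1 by ring, h]
  have e : U P Q (m + 1) * U P Q (n + 1) - Q * (U P Q m * U P Q n) =
      (-(Q * U P Q n)) * U P Q m + U P Q (m + 1) * U P Q (n + 1) := by ring
  rw [e, Int.gcd_add_mul_right_right]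
  have hc : IsCoprime (U P Q (n + 1)) (-(Q * U P Q n)) :=
    (IsCoprime.mul_right (coprime_Q hPQ n) (coprime_succ hPQ n).symm).neg_right
  rw [Int.isCoprime_iff_gcd_eq_one] at hc
  exact Int.gcd_mul_right_right_of_gcd_eq_one hc

lemma gcd_add_mul (m n k : ℕ) :
    Int.gcd (U P Q n) (U P Q (m + k * n)) = Int.gcd (U P Q n) (U P Q m) := by
  induction k with
  | zero => simp
  | succ k ih =>
    rw [show m + (k + 1) * n = (m + k * n) + n by ring, gcd_add hPQ, ih]

theorem gcd_U (m n : ℕ) : Int.gcd (U P Q m) (U P Q n) = (U P Q (Nat.gcd m n)).natAbs := by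
  induction m, n using Nat.gcd.induction with
  | H0 n => simp [U]
  | H1 m n hm ih =>
    rw [Nat.gcd_rec, ← ih, Int.gcd_comm (U P Q (n % m))]
    have h := gcd_add_mul hPQ (n % m) m (n / m)
    rw [mul_comm, Nat.mod_add_div] at h
    exact h

end Pool.Agent.X13.Lucas
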